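import Pool.Agent.Helper13.ZL.Stmts

set_option autoImplicit false

open scoped Classical

namespace Pool.Agent.Helper13.ZL

open Filter Topology NumberField

section

variable (k : Type) [Field k] [NumberField k]

/-- the nonzero ideals -/
abbrev pz_I : Type := {I : Ideal (𝓞 k) // I ≠ ⊥}

/-- the number of ideals of norm `n` -/
noncomputable def pz_c (n : ℕ) : ℝ := (Nat.card {I : Ideal (𝓞 k) // Ideal.absNorm I = n} : ℝ)

variable {k}

/-- the norm -/
noncomputable def pz_N (I : pz_I k) : ℕ := Ideal.absNorm I.1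

theorem pz_N_pos (I : pz_I k) : 0 < pz_N I :=
  Nat.pos_of_ne_zero fun h => I.2 (Ideal.absNorm_eq_zero_iff.1 h)

theorem pz_N_one (I : pz_I k) : (1 : ℝ) ≤ (pz_N I : ℝ) := by
  exact_mod_cast pz_N_pos I

variable (k)

/-- the zeta function on the real line -/
noncomputable def pz_Z (s : ℝ) : ℝ := ∑' I : pz_I k, (pz_N I : ℝ) ^ (-s)

theorem pz_c_nonneg (n : ℕ) : 0 ≤ pz_c k n := Nat.cast_nonneg _

theorem pz_tendsto : Tendsto (fun n : ℕ => (∑ i ∈ Finset.Icc 1 n, pz_c k i) / (n : ℝ)) atTop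
    (𝓝 (dedekindZeta_residue k)) := by
  refine ((Ideal.tendsto_norm_le_div_atTop₀ k).comp tendsto_natCast_atTop_atTop).congr fun n ↦ ?_
  unfold pz_c
  simp only [Function.comp_apply, Nat.cast_le, ← Nat.cast_sum]
  congr
  rw [← add_left_inj 1, ← Ideal.card_norm_le_eq_card_norm_le_add_one,
    show Finset.Icc 1 n = Finset.Ioc 0 n from Finset.Icc_succ_left_eq_Ioc _ _,
    show 1 = Nat.card {I : Ideal (𝓞 k) // Ideal.absNorm I = 0} by simp [Ideal.absNorm_eq_zero_iff],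
    Finset.sum_Ioc_add_eq_sum_Icc (n.zero_le),
    ← Finset.card_preimage_eq_sum_card_image_eq (fun k _ ↦ Ideal.finite_setOfPred_absNorm_eq k)]
  simp [Set.coe_eq_subtype]

theorem pz_lsum {s : ℝ} (hs : 1 < s) :
    LSeriesSummable (fun n => (pz_c k n : ℂ)) (s : ℂ) := by
  apply LSeriesSummable_of_sum_norm_bigO_and_nonneg (r := 1) _ (pz_c_nonneg k) zero_le_one
  · simpa using hs
  · have h := (pz_tendsto k).isBigO_one ℝ
    have h2 := h.mul (Asymptotics.isBigO_refl (fun n : ℕ => (n : ℝ)) atTop)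
    refine h2.congr' ?_ ?_
    · filter_upwards [eventually_ne_atTop 0] with n hn
      have hn' : (n : ℝ) ≠ 0 := by exact_mod_cast hn
      field_simp
    · refine Eventually.of_forall fun n => ?_
      simp

/-- the sum over ideals is the sum over norms -/
theorem pz_sigma {s : ℝ} (hs : 1 < s) :
    HasSum (fun I : pz_I k => (pz_N I : ℝ) ^ (-s)) (dedekindZeta k (s : ℂ)).re := by
  obtain ⟨g, hg⟩ : ∃ g : ℕ → ℝ, g = fun n => if n = 0 then 0 else pz_c k n * (n : ℝ) ^ (-s) :=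
    ⟨_, rfl⟩
  have hterm : ∀ n, LSeries.term (fun n => (pz_c k n : ℂ)) (s : ℂ) n = ((g n : ℝ) : ℂ) := by
    intro n
    rw [hg, LSeries.term_def]
    by_cases hn : n = 0
    · simp [hn]
    · rw [if_neg hn]
      simp only [if_neg hn]
      push_cast
      rw [Complex.ofReal_cpow (Nat.cast_nonneg n), Complex.ofReal_natCast, Complex.ofReal_neg,
        Complex.cpow_neg]
      rfl
  have h1 : HasSum (fun n => ((g n : ℝ) : ℂ)) (dedekindZeta k (s : ℂ)) := by
    have h2 := (pz_lsum k hs).hasSum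
    have h3 : (∑' n, LSeries.term (fun n => (pz_c k n : ℂ)) (s : ℂ) n) = dedekindZeta k (s : ℂ) := by
      unfold dedekindZeta LSeries pz_c
      simp
    rw [h3] at h2
    refine h2.congr_fun ?_
    intro n
    exact (hterm n).symm
  have h4 : HasSum g (dedekindZeta k (s : ℂ)).re := by
    have h5 := Complex.hasSum_re h1
    simpa using h5
  -- the fibers
  have hfib : ∀ n : ℕ, HasSum (fun I : {I : pz_I k // pz_N I = n} => (pz_N I.1 : ℝ) ^ (-s)) (g n) := by
    intro n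
    have hfin : Finite {I : pz_I k // pz_N I = n} := by
      have h6 : Finite {I : Ideal (𝓞 k) // Ideal.absNorm I = n} :=
        (Ideal.finite_setOfPred_absNorm_eq n).to_subtype
      refine Finite.of_injective (fun I : {I : pz_I k // pz_N I = n} =>
        (⟨I.1.1, I.2⟩ : {I : Ideal (𝓞 k) // Ideal.absNorm I = n})) ?_
      intro I J h
      have h' : I.1.1 = J.1.1 :=
        congrArg (fun x : {I : Ideal (𝓞 k) // Ideal.absNorm I = n} => x.1) h
      exact Subtype.ext (Subtype.ext h')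
    have := Fintype.ofFinite {I : pz_I k // pz_N I = n}
    have h7 : (∑ I : {I : pz_I k // pz_N I = n}, (pz_N I.1 : ℝ) ^ (-s)) = g n := by
      have h8 : ∀ I : {I : pz_I k // pz_N I = n}, (pz_N I.1 : ℝ) ^ (-s) = (n : ℝ) ^ (-s) := by
        intro I
        rw [I.2]
      rw [Finset.sum_congr rfl fun I _ => h8 I, Finset.sum_const, Finset.card_univ, nsmul_eq_mul]
      by_cases hn : n = 0
      · rw [hg]
        simp only [if_pos hn]
        have : Fintype.card {I : pz_I k // pz_N I = n} = 0 := by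
          rw [Fintype.card_eq_zero_iff]
          constructor
          intro I
          have h9 := pz_N_pos I.1
          rw [I.2, hn] at h9
          exact lt_irrefl _ h9
        rw [this]
        simp
      · rw [hg]
        simp only [if_neg hn]
        congr 1
        unfold pz_c
        rw [← Nat.card_eq_fintype_card]
        congr 1
        refine Nat.card_congr ⟨fun I => ⟨I.1.1, I.2⟩, fun I => ⟨⟨I.1, ?_⟩, I.2⟩, fun _ => rfl,
          fun _ => rfl⟩
        intro h0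
        have h10 := I.2
        rw [h0, Ideal.absNorm_bot] at h10
        exact hn h10.symm
    rw [← h7]
    exact hasSum_fintype _
  have hsum : Summable (fun p : Σ n : ℕ, {I : pz_I k // pz_N I = n} => (pz_N p.2.1 : ℝ) ^ (-s)) := by
    rw [summable_sigma_of_nonneg (fun p => by positivity)]
    refine ⟨fun n => (hfib n).summable, ?_⟩
    have h11 : (fun n : ℕ => ∑' I : {I : pz_I k // pz_N I = n}, (pz_N I.1 : ℝ) ^ (-s)) = g := by
      funext n
      exact (hfib n).tsum_eq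
    rw [h11]
    exact h4.summable
  have h12 : HasSum (fun p : Σ n : ℕ, {I : pz_I k // pz_N I = n} => (pz_N p.2.1 : ℝ) ^ (-s))
      (dedekindZeta k (s : ℂ)).re := by
    have h13 := hsum.hasSum
    have h14 := h13.sigma hfib
    rw [h14.unique h4] at h13
    exact h13
  exact (Equiv.hasSum_iff (Equiv.sigmaFiberEquiv (pz_N : pz_I k → ℕ))).1 h12

theorem pz_summable {s : ℝ} (hs : 1 < s) : Summable (fun I : pz_I k => (pz_N I : ℝ) ^ (-s)) :=
  (pz_sigma k hs).summable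

theorem pz_Z_tendsto : Tendsto (fun s : ℝ => (s - 1) * pz_Z k s) (𝓝[>] 1)
    (𝓝 (dedekindZeta_residue k)) := by
  have h1 := (Complex.continuous_re.tendsto _).comp (tendsto_sub_one_mul_dedekindZeta_nhdsGT k)
  rw [Complex.ofReal_re] at h1
  refine h1.congr' ?_
  filter_upwards [self_mem_nhdsWithin] with s hs
  have h2 : pz_Z k s = (dedekindZeta k (s : ℂ)).re := (pz_sigma k hs).tsum_eq
  rw [h2, Function.comp_apply]
  have e : ((s : ℂ) - 1) = ((s - 1 : ℝ) : ℂ) := by push_cast; ring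
  rw [e, Complex.re_ofReal_mul]

theorem pz_Z_one {s : ℝ} (hs : 1 < s) : 1 ≤ pz_Z k s := by
  have h : ((⊤ : Ideal (𝓞 k)) ≠ ⊥) := top_ne_bot
  have h1 := (pz_summable k hs).le_tsum ⟨⊤, h⟩ (fun I _ => by positivity)
  have h2 : (pz_N (⟨⊤, h⟩ : pz_I k) : ℝ) ^ (-s) = 1 := by
    unfold pz_N
    rw [Ideal.absNorm_top, Nat.cast_one, Real.one_rpow]
  rw [h2] at h1
  exact h1

theorem pz_Z_anti {s t : ℝ} (hs : 1 < s) (hst : s ≤ t) : pz_Z k t ≤ pz_Z k s := by
  refine (pz_summable k (hs.trans_le hst)).tsum_le_tsum (fun I => ?_) (pz_summable k hs)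
  exact Real.rpow_le_rpow_of_exponent_le (pz_N_one I) (by linarith)

/-- the logarithm of the zeta function near `1` -/
theorem pz_logZ : ∃ C : ℝ, ∀ s : ℝ, 1 < s → s ≤ 2 →
    |Real.log (pz_Z k s) - Real.log (1 / (s - 1))| ≤ C := by
  have hκ := dedekindZeta_residue_pos k
  obtain ⟨κ, hκe⟩ : ∃ κ, κ = dedekindZeta_residue k := ⟨_, rfl⟩
  rw [← hκe] at hκ
  have h1 := pz_Z_tendsto k
  rw [← hκe] at h1
  have h2 : ∀ᶠ s in 𝓝[>] (1 : ℝ), (s - 1) * pz_Z k s ∈ Set.Ioo (κ / 2) (2 * κ) :=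
    h1 (Ioo_mem_nhds (by linarith) (by linarith))
  rw [eventually_nhdsWithin_iff, Metric.eventually_nhds_iff] at h2
  obtain ⟨η, hη, h3⟩ := h2
  refine ⟨|Real.log (κ / 2)| + |Real.log (2 * κ)| + Real.log (pz_Z k (1 + η)) +
    |Real.log (1 / η)|, ?_⟩
  intro s hs hs2
  have hZ1 := pz_Z_one k hs
  have hZη := pz_Z_one k (show 1 < 1 + η by linarith)
  have hl0 : 0 ≤ Real.log (pz_Z k (1 + η)) := Real.log_nonneg hZη
  have hs0 : 0 < s - 1 := by linarith
  by_cases h : s < 1 + η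
  · have h4 := h3 (y := s) (by rw [Real.dist_eq, abs_of_pos hs0]; linarith) hs
    have h5 : Real.log (pz_Z k s) - Real.log (1 / (s - 1)) = Real.log ((s - 1) * pz_Z k s) := by
      rw [Real.log_mul hs0.ne' (by linarith), one_div, Real.log_inv]
      ring
    rw [h5]
    have h6 : Real.log (κ / 2) ≤ Real.log ((s - 1) * pz_Z k s) :=
      Real.log_le_log (by positivity) h4.1.le
    have h7 : Real.log ((s - 1) * pz_Z k s) ≤ Real.log (2 * κ) :=
      Real.log_le_log (by positivity) h4.2.le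
    have h8 : |Real.log ((s - 1) * pz_Z k s)| ≤ |Real.log (κ / 2)| + |Real.log (2 * κ)| := by
      rw [abs_le]
      have a1 := neg_abs_le (Real.log (κ / 2))
      have a2 := le_abs_self (Real.log (2 * κ))
      have a3 := abs_nonneg (Real.log (2 * κ))
      have a4 := abs_nonneg (Real.log (κ / 2))
      constructor <;> linarith
    have a5 := abs_nonneg (Real.log (1 / η))
    linarith
  · rw [not_lt] at h
    have h4 : 0 ≤ Real.log (pz_Z k s) := Real.log_nonneg hZ1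
    have h5 : Real.log (pz_Z k s) ≤ Real.log (pz_Z k (1 + η)) :=
      Real.log_le_log (by linarith) (pz_Z_anti k (by linarith) h)
    have h6 : 0 ≤ Real.log (1 / (s - 1)) := by
      apply Real.log_nonneg
      rw [le_div_iff₀ hs0]
      linarith
    have h7 : Real.log (1 / (s - 1)) ≤ Real.log (1 / η) := by
      apply Real.log_le_log (by positivity)
      exact one_div_le_one_div_of_le hη (by linarith)
    have a1 := le_abs_self (Real.log (1 / η))
    have a2 := abs_nonneg (Real.log (κ / 2))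
    have a3 := abs_nonneg (Real.log (2 * κ))
    rw [abs_le]
    constructor <;> linarith

variable {k}

/-- the product of the places in a finite set -/
noncomputable def pz_P (B : Finset (Pl k)) : Ideal (𝓞 k) := ∏ v ∈ B, v.asIdeal

theorem pz_P_ne (B : Finset (Pl k)) : pz_P B ≠ ⊥ := by
  unfold pz_P
  rw [← Ideal.zero_eq_bot]
  exact Finset.prod_ne_zero_iff.2 fun v _ => v.ne_bot

theorem pz_dvd (B : Finset (Pl k)) (v : Pl k) : v.asIdeal ∣ pz_P B ↔ v ∈ B := by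
  constructor
  · intro h
    have hp : Prime v.asIdeal := Ideal.prime_of_isPrime v.ne_bot v.isPrime
    obtain ⟨w, hw, hd⟩ := (hp.dvd_finsetProd_iff _).1 h
    have hpw : Prime w.asIdeal := Ideal.prime_of_isPrime w.ne_bot w.isPrime
    have h1 := (hp.dvd_prime_iff_associated hpw).1 hd
    rw [associated_iff_eq] at h1
    have h2 : v = w := IsDedekindDomain.HeightOneSpectrum.ext h1
    rw [h2]
    exact hw
  · intro h
    exact Finset.dvd_prod_of_mem _ h

theorem pz_P_inj : Function.Injective (pz_P : Finset (Pl k) → Ideal (𝓞 k)) := by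
  intro B C h
  ext v
  rw [← pz_dvd, h, pz_dvd]

theorem pz_P_norm (B : Finset (Pl k)) (s : ℝ) :
    (Ideal.absNorm (pz_P B) : ℝ) ^ (-s) = ∏ v ∈ B, (q v : ℝ) ^ (-s) := by
  unfold pz_P q
  rw [map_prod, Nat.cast_prod, ← Real.finsetProd_rpow]
  intro v _
  positivity

/-- upper bound for finite sums over places -/
theorem pz_up {s : ℝ} (hs : 1 < s) (A : Finset (Pl k)) :
    ∑ v ∈ A, (q v : ℝ) ^ (-s) ≤ Real.log (pz_Z k s) + pz_Z k 2 := by
  have hx0 : ∀ v : Pl k, 0 ≤ (q v : ℝ) ^ (-s) := fun v => by positivity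
  have hprod : ∏ v ∈ A, (1 + (q v : ℝ) ^ (-s)) ≤ pz_Z k s := by
    rw [Finset.prod_one_add]
    have hinj : Set.InjOn (fun B : Finset (Pl k) => (⟨pz_P B, pz_P_ne B⟩ : pz_I k))
        (A.powerset : Set (Finset (Pl k))) := by
      intro B _ C _ h
      exact pz_P_inj (congrArg Subtype.val h)
    have h1 : ∑ B ∈ A.powerset, ∏ v ∈ B, (q v : ℝ) ^ (-s)
        = ∑ I ∈ A.powerset.image (fun B : Finset (Pl k) => (⟨pz_P B, pz_P_ne B⟩ : pz_I k)),
          (pz_N I : ℝ) ^ (-s) := by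
      rw [Finset.sum_image hinj]
      refine Finset.sum_congr rfl fun B _ => ?_
      rw [← pz_P_norm]
      rfl
    rw [h1]
    exact (pz_summable k hs).sum_le_tsum _ (fun I _ => by positivity)
  have hlog : ∀ v : Pl k, (q v : ℝ) ^ (-s) ≤ Real.log (1 + (q v : ℝ) ^ (-s))
      + ((q v : ℝ) ^ (-s)) ^ 2 := by
    intro v
    have h1 := Real.le_log_one_add_of_nonneg (hx0 v)
    have h2 := hx0 v
    generalize (q v : ℝ) ^ (-s) = x at h1 h2
    have h3 : x - x ^ 2 ≤ 2 * x / (x + 2) := by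
      rw [le_div_iff₀ (by linarith)]
      nlinarith [pow_nonneg h2 3, sq_nonneg x]
    linarith
  have hsq : ∑ v ∈ A, ((q v : ℝ) ^ (-s)) ^ 2 ≤ pz_Z k 2 := by
    have hinj : Set.InjOn (fun v : Pl k => (⟨v.asIdeal, v.ne_bot⟩ : pz_I k)) (A : Set (Pl k)) := by
      intro v _ w _ h
      exact IsDedekindDomain.HeightOneSpectrum.ext (congrArg Subtype.val h)
    have h1 : ∑ v ∈ A, ((q v : ℝ) ^ (-s)) ^ 2 ≤ ∑ v ∈ A, (q v : ℝ) ^ (-2 : ℝ) := by
      refine Finset.sum_le_sum fun v _ => ?_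
      have hq : (1 : ℝ) ≤ (q v : ℝ) := pz_N_one (⟨v.asIdeal, v.ne_bot⟩ : pz_I k)
      rw [← Real.rpow_natCast, ← Real.rpow_mul (by linarith)]
      apply Real.rpow_le_rpow_of_exponent_le hq
      push_cast
      linarith
    have h2 : ∑ v ∈ A, (q v : ℝ) ^ (-2 : ℝ)
        = ∑ I ∈ A.image (fun v : Pl k => (⟨v.asIdeal, v.ne_bot⟩ : pz_I k)),
          (pz_N I : ℝ) ^ (-2 : ℝ) := by
      rw [Finset.sum_image hinj]
      rfl
    rw [h2] at h1
    exact h1.trans ((pz_summable k (by norm_num)).sum_le_tsum _ (fun I _ => by positivity))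
  have h3 : ∑ v ∈ A, Real.log (1 + (q v : ℝ) ^ (-s)) = Real.log (∏ v ∈ A, (1 + (q v : ℝ) ^ (-s))) := by
    rw [Real.log_prod]
    intro v _
    have := hx0 v
    linarith
  have h4 : Real.log (∏ v ∈ A, (1 + (q v : ℝ) ^ (-s))) ≤ Real.log (pz_Z k s) := by
    apply Real.log_le_log _ hprod
    exact Finset.prod_pos fun v _ => by linarith [hx0 v]
  calc ∑ v ∈ A, (q v : ℝ) ^ (-s) ≤ ∑ v ∈ A, (Real.log (1 + (q v : ℝ) ^ (-s))
      + ((q v : ℝ) ^ (-s)) ^ 2) := Finset.sum_le_sum fun v _ => hlog v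
    _ = Real.log (∏ v ∈ A, (1 + (q v : ℝ) ^ (-s))) + ∑ v ∈ A, ((q v : ℝ) ^ (-s)) ^ 2 := by
        rw [Finset.sum_add_distrib, h3]
    _ ≤ _ := add_le_add h4 hsq

theorem pz_psum {s : ℝ} (hs : 1 < s) : Summable (fun v : Pl k => (q v : ℝ) ^ (-s)) :=
  summable_of_sum_le (fun v => by positivity) (pz_up hs)

/-- squarefree part and square -/
theorem pz_fac (I : Ideal (𝓞 k)) (hI : I ≠ ⊥) :
    ∃ (B : Finset (Pl k)) (J : Ideal (𝓞 k)), J ≠ ⊥ ∧ I = pz_P B * J ^ 2 := by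
  rw [← Ideal.zero_eq_bot] at hI
  revert hI
  refine UniqueFactorizationMonoid.induction_on_prime I ?_ ?_ ?_
  · intro h
    exact absurd rfl h
  · intro J hJ _
    rw [Ideal.isUnit_iff] at hJ
    refine ⟨∅, 1, one_ne_zero, ?_⟩
    rw [hJ]
    unfold pz_P
    rw [Finset.prod_empty, one_pow, one_mul, Ideal.one_eq_top]
  · intro a p ha hp ih _
    obtain ⟨B, J, hJ, hB⟩ := ih ha
    have hpp : p.IsPrime := Ideal.isPrime_of_prime hp
    have hpb : p ≠ ⊥ := by
      rw [← Ideal.zero_eq_bot]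
      exact hp.ne_zero
    obtain ⟨v, hv⟩ : ∃ v : Pl k, v.asIdeal = p := ⟨⟨p, hpp, hpb⟩, rfl⟩
    by_cases hvB : v ∈ B
    · refine ⟨B.erase v, J * p, ?_, ?_⟩
      · rw [← Ideal.zero_eq_bot] at hJ ⊢
        exact mul_ne_zero hJ hp.ne_zero
      · rw [hB]
        have h1 : pz_P B = v.asIdeal * pz_P (B.erase v) := (Finset.mul_prod_erase B _ hvB).symm
        rw [h1, hv]
        ring
    · refine ⟨insert v B, J, hJ, ?_⟩
      have h1 : pz_P (insert v B) = v.asIdeal * pz_P B := Finset.prod_insert hvB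
      rw [h1, hB, hv]
      ring

/-- lower bound -/
theorem pz_low {s : ℝ} (hs : 1 < s) :
    pz_Z k s ≤ Real.exp (∑' v : Pl k, (q v : ℝ) ^ (-s)) * pz_Z k 2 := by
  have h := fun I : pz_I k => pz_fac I.1 I.2
  choose B J hJ hBJ using h
  apply Real.tsum_le_of_sum_le (fun I => by positivity)
  intro F
  obtain ⟨A, hA⟩ : ∃ A : Finset (Pl k), A = F.biUnion B := ⟨_, rfl⟩
  obtain ⟨𝓙, h𝓙⟩ : ∃ 𝓙 : Finset (pz_I k), 𝓙 = F.image (fun I => (⟨J I, hJ I⟩ : pz_I k)) := ⟨_, rfl⟩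
  have hinj : Set.InjOn (fun I : pz_I k => (B I, (⟨J I, hJ I⟩ : pz_I k))) (F : Set (pz_I k)) := by
    intro I _ I' _ h
    apply Subtype.ext
    have h1 : B I = B I' := congrArg Prod.fst h
    have h2 : J I = J I' := congrArg Subtype.val (congrArg Prod.snd h)
    rw [hBJ I, hBJ I', h1, h2]
  have hval : ∀ I : pz_I k, (pz_N I : ℝ) ^ (-s)
      ≤ (∏ v ∈ B I, (q v : ℝ) ^ (-s)) * (pz_N (⟨J I, hJ I⟩ : pz_I k) : ℝ) ^ (-2 : ℝ) := by
    intro I
    have h1 : (pz_N I : ℝ) = (Ideal.absNorm (pz_P (B I)) : ℝ) * (pz_N (⟨J I, hJ I⟩ : pz_I k) : ℝ) ^ 2 := by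
      have h2 : pz_N I = Ideal.absNorm (pz_P (B I)) * (Ideal.absNorm (J I)) ^ 2 := by
        unfold pz_N
        conv_lhs => rw [hBJ I]
        rw [map_mul, map_pow]
      rw [h2]
      push_cast
      rfl
    rw [h1, Real.mul_rpow (by positivity) (by positivity), pz_P_norm]
    apply mul_le_mul_of_nonneg_left _ (Finset.prod_nonneg fun v _ => by positivity)
    have h3 := pz_N_one (⟨J I, hJ I⟩ : pz_I k)
    rw [← Real.rpow_natCast, ← Real.rpow_mul (by linarith)]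
    apply Real.rpow_le_rpow_of_exponent_le h3
    push_cast
    linarith
  have h1 : ∑ I ∈ F, (pz_N I : ℝ) ^ (-s)
      ≤ ∑ I ∈ F, (∏ v ∈ B I, (q v : ℝ) ^ (-s)) * (pz_N (⟨J I, hJ I⟩ : pz_I k) : ℝ) ^ (-2 : ℝ) :=
    Finset.sum_le_sum fun I _ => hval I
  have h2 : ∑ I ∈ F, (∏ v ∈ B I, (q v : ℝ) ^ (-s)) * (pz_N (⟨J I, hJ I⟩ : pz_I k) : ℝ) ^ (-2 : ℝ)
      = ∑ x ∈ F.image (fun I : pz_I k => (B I, (⟨J I, hJ I⟩ : pz_I k))),
        (∏ v ∈ x.1, (q v : ℝ) ^ (-s)) * (pz_N x.2 : ℝ) ^ (-2 : ℝ) := by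
    rw [Finset.sum_image hinj]
  have hsub : F.image (fun I : pz_I k => (B I, (⟨J I, hJ I⟩ : pz_I k))) ⊆ A.powerset ×ˢ 𝓙 := by
    intro x hx
    obtain ⟨I, hI, rfl⟩ := Finset.mem_image.1 hx
    rw [Finset.mem_product, Finset.mem_powerset, hA, h𝓙]
    exact ⟨Finset.subset_biUnion_of_mem B hI, Finset.mem_image_of_mem _ hI⟩
  have h3 : ∑ x ∈ F.image (fun I : pz_I k => (B I, (⟨J I, hJ I⟩ : pz_I k))),
        (∏ v ∈ x.1, (q v : ℝ) ^ (-s)) * (pz_N x.2 : ℝ) ^ (-2 : ℝ)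
      ≤ ∑ x ∈ A.powerset ×ˢ 𝓙, (∏ v ∈ x.1, (q v : ℝ) ^ (-s)) * (pz_N x.2 : ℝ) ^ (-2 : ℝ) :=
    Finset.sum_le_sum_of_subset_of_nonneg hsub fun x _ _ =>
      mul_nonneg (Finset.prod_nonneg fun v _ => by positivity) (by positivity)
  have h4 : ∑ x ∈ A.powerset ×ˢ 𝓙, (∏ v ∈ x.1, (q v : ℝ) ^ (-s)) * (pz_N x.2 : ℝ) ^ (-2 : ℝ)
      = (∏ v ∈ A, (1 + (q v : ℝ) ^ (-s))) * ∑ I ∈ 𝓙, (pz_N I : ℝ) ^ (-2 : ℝ) := by
    rw [Finset.sum_product, Finset.prod_one_add, Finset.sum_mul]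
    refine Finset.sum_congr rfl fun x _ => ?_
    rw [Finset.mul_sum]
  have h5 : ∏ v ∈ A, (1 + (q v : ℝ) ^ (-s)) ≤ Real.exp (∑' v : Pl k, (q v : ℝ) ^ (-s)) := by
    refine (Finset.prod_le_prod (fun v _ => by positivity) (fun v _ => ?_)).trans
      (b := ∏ v ∈ A, Real.exp ((q v : ℝ) ^ (-s))) ?_
    · rw [add_comm]
      exact Real.add_one_le_exp _
    · rw [← Real.exp_sum]
      apply Real.exp_le_exp.2
      exact (pz_psum hs).sum_le_tsum _ (fun v _ => by positivity)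
  have h6 : ∑ I ∈ 𝓙, (pz_N I : ℝ) ^ (-2 : ℝ) ≤ pz_Z k 2 :=
    (pz_summable k (by norm_num)).sum_le_tsum _ (fun I _ => by positivity)
  calc ∑ I ∈ F, (pz_N I : ℝ) ^ (-s) ≤ _ := h1
    _ = _ := h2
    _ ≤ _ := h3
    _ = _ := h4
    _ ≤ _ := mul_le_mul h5 h6 (Finset.sum_nonneg fun I _ => by positivity) (Real.exp_pos _).le

end

theorem st_PZ : ST_PZ := by
  intro k _ _
  obtain ⟨C, hC⟩ := pz_logZ k
  refine ⟨C + pz_Z k 2 + Real.log (pz_Z k 2), ?_⟩
  intro s hs hs2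
  simp only [one_mul]
  refine ⟨pz_psum hs, ?_⟩
  have h1 := hC s hs hs2
  have h2 : ∑' v : Pl k, (q v : ℝ) ^ (-s) ≤ Real.log (pz_Z k s) + pz_Z k 2 :=
    Real.tsum_le_of_sum_le (fun v => by positivity) (pz_up hs)
  have hZ := pz_Z_one k hs
  have hZ2 := pz_Z_one k (show (1 : ℝ) < 2 by norm_num)
  have h3 : Real.log (pz_Z k s) ≤ ∑' v : Pl k, (q v : ℝ) ^ (-s) + Real.log (pz_Z k 2) := by
    have h4 := Real.log_le_log (by linarith) (pz_low (k := k) hs)
    rw [Real.log_mul (Real.exp_pos _).ne' (by linarith), Real.log_exp] at h4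
    exact h4
  have h5 : 0 ≤ Real.log (pz_Z k 2) := Real.log_nonneg hZ2
  rw [abs_le] at h1 ⊢
  constructor <;> linarith [h1.1, h1.2]

end Pool.Agent.Helper13.ZL
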